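import Pool.Agent.Y191.DimGe

/-!
# Nonvanishing for pairs whose fibres correspond to moving log canonical arrangements

Let `(X, Δ)` be a projective pair: `X` is normal, `Δ` is an effective `ℚ`-divisor (for instance
`(X, Δ)` is log canonical), `X ⇢ P^v` a rational map whose image `Y`, any subvariety of `P^v`, has
dimension `p`. Suppose:

* (the base) `ℓ i = 0`, `i < q`, are hyperplanes in general position which do not contain `Y`, such
  that the points `ℓ i` impose independent conditions on the forms of degree `d`, with weights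
  `wt i ≥ 0` whose sum is at least `(p + 1) γ`, `γ = (v - p + d).choose (v - p)`; if `e i` is the
  multiplicity of the hyperplane `ℓ i = 0` at the prime divisor `P` of `X` (for the divisors without
  fixed component which the map defines) then
  `min (#{i | e i ≠ 0}) γ ≤ γ Δ_P + ∑ i, (1 - wt i) e i`. (The sum of the weights may be equal to
  `(p + 1) γ`; for instance, if `Y = P^p`, `γ = 1`, the orbifold base may be of Calabi-Yau type.)
* (the fibres) there is a correspondence between `X` and a relative product of projective spaces: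
  a variety `X'` with a generically finite map `X' ⇢ X` (any finite extension `K'` of the function
  field `K`, ramified anywhere) and a generically finite map over `Y` of `X'` to
  `Y' × P^{r_1} × ... × P^{r_c}`, `r_j ≥ 1`, `Y'` finite over `Y`, and in each `P^{r_j}` there are
  any hyperplanes `A j i = 0` which move with the point of `Y'`, with weights `w j i` in `[0, 1]`
  such that the arrangement is log canonical: the sum of the weights of hyperplanes with a common
  point is at most the codimension of their intersection. If `Q` is a place of `K'` over a prime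
  divisor `P` of `X` which dominates `Y`, with ramification index `ε`, and `e j i` are the
  multiplicities of the hyperplanes at `Q`, not all zero, then `ε (1 - Δ_P)` is at most
  `∑ (mx_j - ∑ w j i e j i)`, where `mx_j` is the greatest sum of `r_j + 1` of the `e j i` whose
  hyperplanes have no common point (`ε (1 - Δ_P) ≤ 1`, if all `e j i` are zero); and if `Q` is a place
  of `K'` over a prime divisor of `P^{r_1} × ... × P^{r_c}` over `Y`, with ramification index `ρ`, and
  with ramification index `ε` over the place `P` of `K`, then `ρ - ε α ≤ ∑ w j i e j i`, where `α` is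
  the log discrepancy of `(X, Δ)` along `P` (it is `1 - Δ_P` if `P` is a prime divisor of `X`).

Then `K_X + Δ` is pseudo-effective if and only if `κ(X, K_X + Δ) ≥ 0`, if and only if
`∑ i, w j i ≥ r_j + 1` for all `j`, and then `κ(X, K_X + Δ)` is at least the sum of the `r_j` with
`∑ i, w j i > r_j + 1`. In particular, if `K_X + Δ` is nef then it is `ℚ`-effective.

The language and the definitions of `Pool.Agent.Y172` are used: `X` is given by the homogeneous
coordinates `y` of its generic point, with values in the function field `K` of `X`; the prime divisors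
of `X` are places `P` of `K`, `P.ord` is the order along `P`. `numericalDim` is `⊥` if and only if
`m (K_X + Δ) + A` has no sections for almost all `m` such that it is integral.

The proof is the combination of the lower bound for the number of the sections of `m (K_X + Δ)`
(`lc_small`) and of the upper bound for `m (K_X + Δ) + A` (`lc_ab`, `lc_nv`) of `Pool.Agent.Y191`.
-/

set_option autoImplicit false

open FF Pool.Agent.W602.GT Pool.Agent.Y172 Pool.Agent.Y191

namespace Pool.Agent.Results.MP_bc213e_ag.CorrespondencePairsNonvanishing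

section

variable {K : Type} [Field K] [Algebra ℂ K] {N : ℕ}

/-- `(X, Δ)` is a projective pair of dimension `n`: `X` is normal, with generic point `y`, and `Δ` is
an effective `ℚ`-divisor. -/
def IsPair (y : Fin (N + 1) → K) (n : ℕ) (Δ : Place ℂ K → ℚ) : Prop :=
  NormalModel y ∧ Algebra.trdeg ℂ K = n ∧ Effective y Δ

/-- The `b j` are the coordinates of a rational map whose image has dimension `p` and is not
contained in one of the hyperplanes `ℓ i = 0`. -/
def IsMap {v q : ℕ} (ℓ : Fin q → Fin (v + 1) → ℂ) (b : Fin (v + 1) → K) (p : ℕ) : Prop :=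
  (∀ i, lf (ℓ i) b ≠ 0) ∧ (∃ j, b j ≠ 0) ∧ Algebra.trdeg ℂ (RF ℂ b) = p

/-- There is a finite extension `K'` of `K`, and the `u ⟨j, k⟩` are the affine coordinates of a
generically finite map, over the variety with the function field `L`, of a variety with the function
field `K'` to a product of projective spaces of dimensions `r j ≥ 1`; `A j i` are the coefficients of
hyperplanes, algebraic over `L`, with weights `w j i` in `[0, 1]` such that the arrangement is log
canonical (`LcArr`). The pull back of `K_X + Δ` to `K'` is compared with the pull back of the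
canonical divisor of the relative product plus `∑ w j i (A j i = 0)` at the places over the prime
divisors of `X` which are trivial on `L` (`LcHor`) and at the places over the prime divisors of the
product (`Cor`). -/
def Fibres (y : Fin (N + 1) → K) (n : ℕ) (Δ : Place ℂ K → ℚ) (L : IntermediateField ℂ K) {c : ℕ}
    (r s : Fin c → ℕ) (w : ∀ j, Fin (s j) → ℚ) : Prop :=
  (∀ j, 1 ≤ r j ∧ ∀ i, 0 ≤ w j i ∧ w j i ≤ 1) ∧
  ∃ (K' : Type) (_ : Field K') (_ : Algebra ℂ K') (_ : Algebra K K') (_ : IsScalarTower ℂ K K')
    (_ : FiniteDimensional K K') (A : ∀ j, Fin (s j) → Fin (r j + 1) → K')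
    (u : (Σ j, Fin (r j)) → K'),
    LcArr (upF K' L) A w ∧ IsTranscendenceBasis (upF K' L) u ∧
    LcHor L A u w {P | IsPrimeDivisor y P} (fun P => (Δ P : ℝ)) ∧
    Cor y n Δ (upF K' L) A u w

/-- the sum of the dimensions `r j` for which the sum of the weights is greater than `r j + 1` -/
def big {c : ℕ} (r s : Fin c → ℕ) (w : ∀ j, Fin (s j) → ℚ) : ℕ :=
  ∑ j, if (r j + 1 : ℚ) < ∑ i, w j i then r j else 0

/-- If the sums of the weights are at least `r j + 1` then the Kodaira dimension of `K_X + Δ` is at
least `big`; otherwise the Kodaira dimension and the numerical dimension (with respect to any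
effective divisor `A`) are `-∞`. -/
def Nonvanishing (y : Fin (N + 1) → K) (n : ℕ) (Δ : Place ℂ K → ℚ) {c : ℕ} (r s : Fin c → ℕ)
    (w : ∀ j, Fin (s j) → ℚ) : Prop :=
  ((∀ j, (r j + 1 : ℚ) ≤ ∑ i, w j i) → ((big r s w : ℕ) : WithBot ℕ) ≤ kodairaDim y n Δ) ∧
  ((∃ j, ∑ i, w j i < (r j + 1 : ℚ)) → kodairaDim y n Δ = ⊥ ∧
    ∀ A, Effective y A → numericalDim y n Δ A = ⊥)

end

theorem exists_idx {c : ℕ} (r q : Fin c → ℕ) (w : ∀ j, Fin (q j) → ℚ) :
    ∃ κ : Fin (big r q w) → Σ j, Fin (r j), Function.Injective κ ∧
      ∀ i, (r (κ i).1 + 1 : ℚ) < ∑ i', w (κ i).1 i' := by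
  classical
  have h1 : Fintype.card {x : Σ j, Fin (r j) // (r x.1 + 1 : ℚ) < ∑ i, w x.1 i} = big r q w := by
    rw [Fintype.card_subtype, Finset.card_filter, Fintype.sum_sigma]
    refine Finset.sum_congr rfl fun j _ => ?_
    change ∑ _k : Fin (r j), (if (r j + 1 : ℚ) < ∑ i, w j i then 1 else 0) = _
    rw [Finset.sum_const, Finset.card_univ, Fintype.card_fin, smul_eq_mul, mul_ite, mul_one,
      mul_zero]
  let φ := Fintype.equivFinOfCardEq h1
  exact ⟨fun i => (φ.symm i : Σ j, Fin (r j)), fun a b hab => φ.symm.injective (Subtype.ext hab),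
    fun i => (φ.symm i).2⟩

/-- **Nonvanishing.** Let `(X, Δ)` be a projective pair of dimension `p + ∑ j, r j`, `b` the
coordinates of a rational map `X ⇢ P^v` whose image has dimension `p`, and let the fibres be as in
`Fibres`. Let `ℓ i = 0` be hyperplanes in general position which do not contain the image and impose
independent conditions on the forms of degree `d`, with weights `wt i ≥ 0` whose sum is at least
`(p + 1) * γ`, where `γ = (v - p + d).choose (v - p)`, and let the multiplicities `e i` satisfy
`min (#{i | e i ≠ 0}) γ ≤ γ Δ_P + ∑ i, (1 - wt i) e i` at all prime divisors of `X`. Then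
`κ(X, K_X + Δ) ≥ big ≥ 0` if `r j + 1 ≤ ∑ i, w j i` for all `j`, and otherwise
`κ(X, K_X + Δ) = -∞` and `K_X + Δ` is not pseudo-effective. -/
theorem result {v q : ℕ} :
    ∀ d p : ℕ, 0 < d → ∀ ℓ : Fin q → Fin (v + 1) → ℂ, Independent d ℓ → GeneralPosition ℓ →
      v + 1 ≤ q → ∀ (K : Type) [Field K] [Algebra ℂ K] (N c : ℕ) (r s : Fin c → ℕ)
      (y : Fin (N + 1) → K) (Δ : Place ℂ K → ℚ), IsPair y (p + ∑ j, r j) Δ →
      ∀ b : Fin (v + 1) → K, IsMap ℓ b p → ∀ wt : Fin q → ℚ, (∀ i, 0 ≤ wt i) →
      (((p + 1) * (v - p + d).choose (v - p) : ℕ) : ℚ) ≤ ∑ i, wt i →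
      (∀ P, IsPrimeDivisor y P → ∀ (c : ℤ) (e : Fin q → ℕ), OrdData P ℓ b c e →
        ((min (Finset.univ.filter fun i => e i ≠ 0).card ((v - p + d).choose (v - p)) : ℕ) : ℚ) ≤
          ((v - p + d).choose (v - p) : ℕ) * Δ P + ∑ i, (1 - wt i) * e i) →
      ∀ w : ∀ j, Fin (s j) → ℚ, Fibres y (p + ∑ j, r j) Δ (RF ℂ b) r s w →
      Nonvanishing y (p + ∑ j, r j) Δ r s w := by
  rintro d p hd ℓ hI hg hq K _ _ N c r s y Δ hy b ⟨hl, hb, htr⟩ wt hwt hlt hmult w
    ⟨hw, K', _, _, _, _, _, A, u, hA, hu, hH, hC⟩
  refine ⟨fun hws => ?_, (lc_ab hy.1 hy.2.1 hy.2.2 hA.1 hu (fun j => (hw j).1)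
    (fun j i => ((hw j).2 i).1) (fun j i => ((hw j).2 i).2) hC).1⟩
  obtain ⟨κ, hκ, hκs⟩ := exists_idx r s w
  refine lc_nv hy.1 hy.2.1 hy.2.2 hA.1 hu (fun j => (hw j).1)
    (fun j i => ((hw j).2 i).1) (fun j i => ((hw j).2 i).2) hC hws
    (by omega) ?_
  refine (lc_small (δ := fun P => (Δ P : ℝ)) (X := {P | IsPrimeDivisor y P}) hd hI hg hq hl hb
    htr hy.2.1 hwt hlt (fun P hP => by exact_mod_cast hy.2.2.1 P hP)
    (fun P hP _ c e ho => ?_) hA finSigmaFinEquiv hu (fun j i => ((hw j).2 i).1)
    hws hκ hκs hH).1
  have h3 := hmult P hP c e ho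
  have h4 := (Rat.cast_le (K := ℝ)).2 h3
  push_cast at h4 ⊢
  exact h4

end Pool.Agent.Results.MP_bc213e_ag.CorrespondencePairsNonvanishing
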