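import Pool.Agent.TH585.SV.Hyp2
import Pool.Agent.TH585.SV.Fib9

/-!
# Nonvanishing for pairs fibred by a linear system that has powerful members

Let `X` be a normal projective variety of dimension `d + e`, `Δ ≥ 0` an `ℝ`-divisor on `X`, for
instance the boundary of an l.c. pair, and `|V|` a linear system on `X` without fixed components, of
dimension `n`, whose rational map has an image `Y` of dimension `d`, `1 ≤ d ≤ n`; `Y` may be any
nondegenerate subvariety of `ℙⁿ`, for instance rational. Let `D i` (`i < q`) be finitely many members
of `|V|` which span `V`, in arbitrary position, and let `c` be the number of the components of this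
configuration: `V` is the direct sum of `c` nonzero subspaces such that each `D i` belongs to one of
them, the component of `D i`, and there is no such decomposition into `c + 1` subspaces. For a prime
divisor `P` of `X` which is a component of some `D i` let `m P` be the largest difference of the
multiplicities of `P` in two members `D i`, `D i'` of the same component of the configuration (if
`c = 1`, this is the largest multiplicity of `P` in the divisors `D i`). Let
`s = (n + 3 - c) (n - d + 1) (n - d + 2) / 2`; if `c = 1` and there are at least `n + 3` different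
members then `n + 1` can be taken instead of `n + 2`.

(1) Let `Δ ≥ Δ₁ + Δ₂`, `Δ₁ ≥ 0`, `1 - δ₁ P ≤ m P / s` for all these `P`, and let `𝓕` be the foliation
by the fibres of `X ⇢ Y`, of rank `e`. If the Kodaira dimension of `K_𝓕 + Δ₂`, relative to `Y`, is at
least `λ` in the sense that some multiple has sections on `X` whose ratios contain `λ` functions that
are algebraically independent over the function field of `Y`, then the Kodaira dimension of `K_X + Δ`
is at least `λ`, so it is not negative; if `s` is greater than the bound then it is at least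
`λ + d + 1 - c`.

(2) Let the general fibres have a generically finite map to products of hyperelliptic or elliptic
curves: `X` has a generically finite rational map over `Y` to the fibre product of double covers
`y_j² = c_j f_j(x_j)` of `Y' × ℙ¹`, where `Y'` is a variety with a generically finite map to `Y`,
`f_j` a separable monic polynomial of degree at least `3` over the function field of `Y'`. If
`1 - δ P ≤ m P / s` for the prime divisors `P` in the members `D i` then `κ(X, K_X + Δ) ≥ 0`, and
`κ(X, K_X + Δ) ≥ d + 1 - c` if `s` is greater than the bound. There is no condition on the boundary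
outside the `D i`, nor on the ramification of the map and on its branch divisor.

The function-field language of the starting repository is used. `K` is the function field of `X`;
the prime divisors of `X` are places `P` of `K` (`Place`, `Divisorial`), `P.ord` is the order along
`P`, and `X` is given by the set of its prime divisors. The linear system is given by the finite
dimensional space `V` of rational functions: if `a` is the minimum of the orders at `P` of the
members of `V` then the multiplicity of `P` in the divisor of the system which is given by `f ∈ V` is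
`P.ord f - a`. A section of `N (K_X + Δ)` is an `N`-canonical form `ω` (`IsPluri`), a function of
`d + e` rational vector fields, whose value on vector fields that are regular at `P` has order at
least `- N δ P`, for all prime divisors `P` of `X`; a section of `m (K_𝓕 + Δ₂)` is such a function of
`e` rational vector fields which are tangent to the fibres of `X ⇢ Y` (`FibreSection`).

Proof (`Pool.Agent.TH585.SV`). The sections are the products of the sections of `m (K_𝓕 + Δ₂)` with
powers of generalised Wronskians of `V` divided by products of members, see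
`MP_bc213e_ag/LinearSystemNonvanishing` (the case `e = 0`, `d < n`). In (2) the discriminant forms
`R (G x) ^ (N (N - 1)) / f(x) ^ (2 (N - 1))` of the vector fields `G` which are tangent to the fibres
are regular on `X`, see `MP_a58813_ag/DoubleCovers` (the case that `Δ = 0` and that the generically
finite map is birational).
-/

set_option autoImplicit false

open FF Pool.Agent.W602.GT

namespace Pool.Agent.Results.MP_bc213e_ag.FibredLinearSystems

/-- The function field of the image of the rational map which is given by the linear system `V`: the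
field generated by the quotients of the members. -/
noncomputable def ImageField {K : Type} [Field K] [Algebra ℂ K] (V : Submodule ℂ K) :
    IntermediateField ℂ K :=
  IntermediateField.adjoin ℂ {y : K | ∃ f ∈ V, ∃ g ∈ V, y = f / g}

/-- `γ` is a decomposition of the configuration of the members `φ i` of `V` into `c` components: `V`
has a basis of `n + 1` elements `x a`, divided into `c` nonempty groups (`x a` is in the group `g a`),
such that `φ i` is in the subspace spanned by the elements of the group `γ i`. -/
def Decomposition (n : ℕ) {q c : ℕ} {K : Type} [Field K] [Algebra ℂ K] (V : Submodule ℂ K)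
    (φ : Fin q → K) (γ : Fin q → Fin c) : Prop :=
  ∃ (x : Fin (n + 1) → K) (g : Fin (n + 1) → Fin c), LinearIndependent ℂ x ∧
    Submodule.span ℂ (Set.range x) = V ∧ Function.Surjective g ∧
    ∀ i, φ i ∈ Submodule.span ℂ (x '' {a | g a = γ i})

/-- There are `r` members `φ i` of which no two are proportional. -/
def Different (r : ℕ) {q : ℕ} {K : Type} [Field K] [Algebra ℂ K] (φ : Fin q → K) : Prop :=
  ∃ τ : Fin r → Fin q, ∀ i j, i ≠ j → ∀ t : ℂ, φ (τ i) ≠ t • φ (τ j)

/-- The condition on the multiplicities, on a variety `X` of dimension `w`: if the prime divisor `P`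
of `X` is a component of one of the divisors `D i` (the order of `φ i` at `P` is not the minimum `a`
of the orders of the members of `V`), then for some members `D i`, `D i'` of the same component of
the configuration the difference of the multiplicities of `P` is at least `s (1 - δ P)`. -/
def Multiplicities (w : ℕ) {q c : ℕ} {K : Type} [Field K] [Algebra ℂ K] (V : Submodule ℂ K)
    (φ : Fin q → K) (γ : Fin q → Fin c) (X : Set (Place ℂ K)) (δ : Place ℂ K → ℝ) (s : ℝ) : Prop :=
  ∀ P ∈ X, Divisorial w P → ∀ a : ℤ, (∀ f ∈ V, f = 0 ∨ a ≤ P.ord f) →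
    (∃ f ∈ V, f ≠ 0 ∧ P.ord f = a) → (∃ i, P.ord (φ i) ≠ a) →
    ∃ i i', γ i' = γ i ∧ s * (1 - δ P) ≤ ((P.ord (φ i) - P.ord (φ i') : ℤ) : ℝ)

/-- `ω` is a section of `N (K_X + Δ)`, where `X` of dimension `w` is given by the set of its prime
divisors, and `Δ` has the coefficient `δ P` at `P`: an `N`-canonical form whose values on vector
fields which are regular at `P` have order at least `- N δ P`, for all prime divisors `P` of `X`. -/
def IsSection {K : Type} [Field K] [Algebra ℂ K] (w : ℕ) (X : Set (Place ℂ K))
    (δ : Place ℂ K → ℝ) (N : ℕ) (ω : (Fin w → Derivation ℂ K K) → K) : Prop :=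
  IsPluri N ω ∧ ∀ P ∈ X, Divisorial w P → ∀ D : Fin w → Derivation ℂ K K,
    (∀ i, DerReg P (D i)) → ω D = 0 ∨ -(N * δ P) ≤ (P.ord (ω D) : ℝ)

/-- `θ` is a section of `m (K_𝓕 + Δ)`, `𝓕` the foliation on `X` by the fibres of the map to the variety
with the function field `L`: it is multiplied by `det A ^ m` under a linear substitution `A` of the
`e` rational vector fields tangent to the fibres (the derivations of `K` over `L`), and its values on
such vector fields which are regular at `P` have order at least `- m δ P`, for all prime divisors `P`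
of `X`. -/
def FibreSection {K : Type} [Field K] [Algebra ℂ K] (w : ℕ) (X : Set (Place ℂ K))
    (δ : Place ℂ K → ℝ) (L : IntermediateField ℂ K) (m e : ℕ)
    (θ : (Fin e → Derivation L K K) → K) : Prop :=
  (∀ (A : Matrix (Fin e) (Fin e) K) (G : Fin e → Derivation L K K),
    θ (fun i => ∑ j, A i j • G j) = A.det ^ m * θ G) ∧
  ∀ P ∈ X, Divisorial w P → ∀ G : Fin e → Derivation L K K,
    (∀ i f, P.Reg f → P.Reg (G i f)) → θ G = 0 ∨ -(m * δ P) ≤ (P.ord (θ G) : ℝ)

/-- The Kodaira dimension of `K_X + Δ` is at least `κ`: some positive multiple has sections with `κ`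
algebraically independent ratios (a nonzero section, if `κ = 0`). -/
def KodairaGe {K : Type} [Field K] [Algebra ℂ K] (w : ℕ) (X : Set (Place ℂ K))
    (δ : Place ℂ K → ℝ) (κ : ℕ) : Prop :=
  ∃ N : ℕ, 0 < N ∧ ∃ ω : Fin (κ + 1) → (Fin w → Derivation ℂ K K) → K,
    (∀ j, IsSection w X δ N (ω j)) ∧
    ∃ D, ω 0 D ≠ 0 ∧ AlgebraicIndependent ℂ (fun i : Fin κ => ω i.succ D / ω 0 D)

/-- The relative Kodaira dimension of `K_𝓕 + Δ` is at least `lam`: some positive multiple `m` has
sections with `lam` ratios which are algebraically independent over the function field `L` of the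
base. -/
def FibreKodairaGe {K : Type} [Field K] [Algebra ℂ K] (w : ℕ) (X : Set (Place ℂ K))
    (δ : Place ℂ K → ℝ) (L : IntermediateField ℂ K) (e lam : ℕ) : Prop :=
  ∃ m : ℕ, 0 < m ∧ ∃ θ : Fin (lam + 1) → (Fin e → Derivation L K K) → K,
    (∀ b, FibreSection w X δ L m e (θ b)) ∧
    ∃ G, θ 0 G ≠ 0 ∧ AlgebraicIndependent L (fun i : Fin lam => θ i.succ G / θ 0 G)

/-- The function field `K` contains the coordinates `x j`, `y j` of `e` hyperelliptic or elliptic
curves `y j ^ 2 = c j * f j (x j)` over the algebraic closure of `L` in `K`, and it is a finite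
extension of the function field of their product (the `x j` are a transcendence basis of `K` over
`L`): the `f j` are monic separable polynomials of degrees at least `3`, with coefficients algebraic
over `L`, and the `c j ≠ 0` are algebraic over `L`. -/
def OverHyperelliptic {e : ℕ} {K : Type} [Field K] [Algebra ℂ K] (L : IntermediateField ℂ K)
    (f : Fin e → Polynomial K) (c x y : Fin e → K) : Prop :=
  (∀ j, (∀ i, IsAlgebraic L ((f j).coeff i)) ∧ (f j).Monic ∧ (f j).Separable ∧
    3 ≤ (f j).natDegree ∧ IsAlgebraic L (c j) ∧ c j ≠ 0 ∧ y j ^ 2 = c j * (f j).eval (x j)) ∧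
  IsTranscendenceBasis L x

/-- **Nonvanishing.** Let `K` be the function field of a variety `X` of dimension `d + e`, `d ≥ 1`, `V`
a linear system of dimension `n ≥ d` on `X` whose rational map has an image of dimension `d`, `φ i`
nonzero members which span `V`, `γ` their decomposition into `c` components (there is no
decomposition into `c + 1` components), `R = n + 3 - c`, or `R = n + 1` if `c = 1` and there are
`n + 3` different members, and `s ≥ R (n - d + 1) (n - d + 2) / 2`.

(1) Let `δ₁ ≥ 0` satisfy the condition on the multiplicities with the number `s`, let `δ₁ + δ₂ ≤ δ`,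
and let the relative Kodaira dimension of `K_𝓕 + Δ₂` be at least `lam`. Then the Kodaira dimension of
`K_X + Δ` is at least `lam`, and at least `κ + lam`, `κ = d + 1 - c`, if the inequality for `s` is
strict.

(2) Let `δ ≥ 0` satisfy the condition on the multiplicities with the number `s`, and let the generic
fibre have a generically finite map to a product of hyperelliptic or elliptic curves. Then some
positive multiple of `K_X + Δ` has a nonzero section, and the Kodaira dimension of `K_X + Δ` is at
least `κ = d + 1 - c` if the inequality for `s` is strict. -/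
theorem result (d e n q c : ℕ) (hd : 1 ≤ d) (hdn : d ≤ n) (K : Type) [Field K]
    [Algebra ℂ K] (hK : Algebra.trdeg ℂ K = (d + e : ℕ))
    (V : Submodule ℂ K) (hV : Algebra.trdeg ℂ (ImageField V) = d)
    (φ : Fin q → K) (hφ0 : ∀ i, φ i ≠ 0) (hφ : Submodule.span ℂ (Set.range φ) = V)
    (γ : Fin q → Fin c) (hγ : Decomposition n V φ γ)
    (hc : ∀ γ' : Fin q → Fin (c + 1), ¬ Decomposition n V φ γ')
    (R : ℕ) (hR : R + c = n + 3 ∨ (c = 1 ∧ Different (n + 3) φ ∧ R = n + 1))
    (X : Set (Place ℂ K)) (s : ℝ)
    (hs : (R : ℝ) * (((n : ℝ) - d + 1) * ((n : ℝ) - d + 2)) ≤ 2 * s) :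
    (∀ (δ₁ δ₂ δ : Place ℂ K → ℝ) (lam : ℕ), (∀ P ∈ X, 0 ≤ δ₁ P) →
      (∀ P ∈ X, δ₁ P + δ₂ P ≤ δ P) → Multiplicities (d + e) V φ γ X δ₁ s →
      FibreKodairaGe (d + e) X δ₂ (ImageField V) e lam →
      KodairaGe (d + e) X δ lam ∧
        ((R : ℝ) * (((n : ℝ) - d + 1) * ((n : ℝ) - d + 2)) < 2 * s →
          ∀ κ : ℕ, κ + c = d + 1 → KodairaGe (d + e) X δ (κ + lam))) ∧
    ∀ (δ : Place ℂ K → ℝ) (f : Fin e → Polynomial K) (c' x y : Fin e → K), (∀ P ∈ X, 0 ≤ δ P) →
      Multiplicities (d + e) V φ γ X δ s → OverHyperelliptic (ImageField V) f c' x y →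
      KodairaGe (d + e) X δ 0 ∧
        ((R : ℝ) * (((n : ℝ) - d + 1) * ((n : ℝ) - d + 2)) < 2 * s →
          ∀ κ : ℕ, κ + c = d + 1 → KodairaGe (d + e) X δ κ) := by
  obtain ⟨k, rfl⟩ := Nat.exists_eq_add_of_le hdn
  have e1 : ((d + k : ℕ) : ℝ) - d = (k : ℝ) := by
    push_cast
    ring
  rw [e1] at hs ⊢
  have main : ∀ (δ₁ δ₂ δ : Place ℂ K → ℝ) (lam : ℕ), (∀ P ∈ X, 0 ≤ δ₁ P) →
      (∀ P ∈ X, δ₁ P + δ₂ P ≤ δ P) → Multiplicities (d + e) V φ γ X δ₁ s →
      FibreKodairaGe (d + e) X δ₂ (ImageField V) e lam →
      KodairaGe (d + e) X δ lam ∧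
        ((R : ℝ) * (((k : ℝ) + 1) * ((k : ℝ) + 2)) < 2 * s →
          ∀ κ : ℕ, κ + c = d + 1 → KodairaGe (d + e) X δ (κ + lam)) := by
    rintro δ₁ δ₂ δ lam h1 h2 h3 ⟨m, hm, θ, hθ, hne⟩
    obtain ⟨h4, h5⟩ := Pool.Agent.TH585.SV.lin_fib (k := k) (lam := lam) hd rfl hK (V := V) hV hφ0
      hφ hγ hc hR X δ₁ δ₂ δ h1 h2 hs (fun P hPX hPd a ha hb hc => h3 P hPX hPd a ha hb hc) hm
      (θ := θ) hθ hne
    exact ⟨h4, fun hlt κ hκ => h5 κ hκ hlt⟩
  refine ⟨main, fun δ f c' x y h1 h2 h3 => ?_⟩
  obtain ⟨m, hm, θ, hθ, hne⟩ := Pool.Agent.TH585.SV.hyp_forms h3.1 h3.2 X (d + e)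
  exact main δ (fun _ => 0) δ 0 h1 (fun P _ => by simp) h2 ⟨m, hm, fun _ => θ, fun _ => hθ, by
    obtain ⟨G, hG⟩ := hne
    refine ⟨G, hG, ?_⟩
    rw [algebraicIndependent_empty_type_iff]
    exact FaithfulSMul.algebraMap_injective _ _⟩

end Pool.Agent.Results.MP_bc213e_ag.FibredLinearSystems
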