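import Pool.Agent.W619.Y.LMain

/-! Nonvanishing for log canonical pairs `(X, D)`, `D` reduced, on quotients of products of a variety
and curves by finite groups which may permute the curves. -/

set_option autoImplicit false
set_option linter.overlappingInstances false

universe u

open FF IntermediateField Pool.Agent.W619.PQ Pool.Agent.W619.PL Pool.Agent.W619.TW
  Pool.Agent.W619.X Pool.Agent.W619.Y

namespace Pool.Agent.Results.MP_bc213e_ag.MixedLogNonvanishing

/-- Let `Y` be a projective variety of dimension `d` with function field `M` (for instance a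
point), `F i` (`i < n`) the function fields of curves `C i`, `Z` a projective variety of dimension
`d + n` with function field `L` and a generically finite rational map to the product of `Y` and the
curves (`halg`), `G` a finite group of automorphisms of `L` which permutes the curves through `σ`,
`B i` a finite set of points of the quotient of `C i` by its stabilizer, such that the `B i` are
permuted by `G`, `X` a projective manifold birational to `Z / G`, and `D` the reduced divisor with
normal crossings on `X` over the `B i` (so `(X, D)` is log canonical). Assume `LogMixedNonneg`, for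
instance that the fixed locus of each `g ≠ 1` in `G` on the product of the curves is empty or of
codimension at least `6`, or that it is empty or of codimension at least `2` and no `B i` is empty.

(1) If `K_Y` is `ℚ`-effective and none of the curves `C i` minus the preimage of `B i` is the
projective line or the affine line, then `K_X + D` is `ℚ`-effective.

(2) Let `Z` be the product of `Y` and the curves. If `K_X + D` is pseudo-effective, for instance nef,
then `K_Y` is pseudo-effective, none of the open curves is the projective line or the affine line,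
and `K_X + D` is `ℚ`-effective if `K_Y` is.

(3) In particular, if `Y` is a point, `Z` the product of the curves, then `K_X + D` is
pseudo-effective if and only if it is `ℚ`-effective, and if and only if none of the open curves is
the projective line or the affine line. -/
theorem result {L : Type u} [Field L] [Algebra ℂ L] (d n : ℕ)
    (hn : Algebra.trdeg ℂ L = (d + n : ℕ))
    (M : IntermediateField ℂ L) [Algebra.EssFiniteType ℂ M] (hM : Algebra.trdeg ℂ M = d)
    (F : Fin n → IntermediateField ℂ L) (hF : ∀ i, IsFF ℂ (F i))
    (halg : Algebra.IsAlgebraic ↥(M ⊔ ⨆ i, F i) L)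
    (G : Subgroup (L ≃ₐ[ℂ] L)) [Finite G] (σ : G →* Equiv.Perm (Fin n))
    (hσ : ∀ (g : G) i, ∀ z ∈ F i, (g : L ≃ₐ[ℂ] L) z ∈ F (σ g i))
    (B : ∀ i, Set (Place ℂ ↥(F i ⊓ fixedField (stb G σ i)))) (hB : ∀ i, (B i).Finite)
    (hinv : BdInv G σ F B) (h : LogMixedNonneg G σ F B) :
    (IsEff ℂ M d (fun _ => False) → (∀ i, ¬ IsNegative inf_le_left (B i)) →
      IsEff ℂ (fixedField G) (d + n) (BdQ G σ F B)) ∧
    (M ⊔ (⨆ i, F i) = ⊤ → IsPsef ℂ (fixedField G) (d + n) (BdQ G σ F B) →
      IsPsef ℂ M d (fun _ => False) ∧ (∀ i, ¬ IsNegative inf_le_left (B i)) ∧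
        (IsEff ℂ M d (fun _ => False) → IsEff ℂ (fixedField G) (d + n) (BdQ G σ F B))) ∧
    (d = 0 → M ⊔ (⨆ i, F i) = ⊤ →
      (IsPsef ℂ (fixedField G) (d + n) (BdQ G σ F B) ↔
        IsEff ℂ (fixedField G) (d + n) (BdQ G σ F B)) ∧
      (IsPsef ℂ (fixedField G) (d + n) (BdQ G σ F B) ↔
        ∀ i, ¬ IsNegative inf_le_left (B i))) := by
  obtain ⟨h1, h2⟩ := nvLM d n hn M hM F halg G σ hσ B hB hinv h
  refine ⟨h1, h2, fun hd hsup => ?_⟩
  have hY : IsEff ℂ M d (fun _ => False) := by
    subst hd
    refine ⟨1, le_rfl, fun _ => 1, ⟨fun A D => ?_, fun v _ _ D _ => Or.inr ?_, fun v _ hb => ?_⟩,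
      fun i => i.elim0, one_ne_zero⟩
    · rw [Matrix.det_isEmpty, one_pow, one_mul]
    · refine ⟨1, by simp, one_ne_zero, ?_⟩
      rw [v.ord_one]
      simp
    · exact hb.elim
  have h3 : IsPsef ℂ (fixedField G) (d + n) (BdQ G σ F B) →
      ∀ i, ¬ IsNegative inf_le_left (B i) := fun hp => (h2 hsup hp).2.1
  have h4 : (∀ i, ¬ IsNegative inf_le_left (B i)) →
      IsEff ℂ (fixedField G) (d + n) (BdQ G σ F B) := fun hneg => h1 hY hneg
  have h5 : IsEff ℂ (fixedField G) (d + n) (BdQ G σ F B) →
      IsPsef ℂ (fixedField G) (d + n) (BdQ G σ F B) := fun he => psef_of_eff he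
  exact ⟨⟨fun hp => h4 (h3 hp), h5⟩, ⟨h3, fun hneg => h5 (h4 hneg)⟩⟩

end Pool.Agent.Results.MP_bc213e_ag.MixedLogNonvanishing
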