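import Pool.Agent.TH756.PN.FinW
import Pool.Agent.Y172.UpB
import Pool.Agent.Y172.Cov3
import Pool.Agent.Y191.DimGe

/-!
# Nonvanishing for pairs over products of projective spaces

Let `(X, Δ)` be a projective pair, `X` normal, `Δ` an effective `ℚ`-divisor (for instance `(X, Δ)` is
log canonical), with a dominant generically finite rational map `X ⇢ ∏ i, ℙ ^ (n i)`, any such map.
For `i < r` let `ℓ i k = 0`, `k < q i`, be hyperplanes in projective `n i`-space, an arbitrary
arrangement (general position is not assumed), and for a prime divisor `P` of `X` let `v i k` be the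
multiplicity of the hyperplane `ℓ i k = 0` at `P` (for the divisors without fixed component which the
map defines). For each factor let `g i` be one of the following functions of the multiplicities
`v i k`: `(max v i k) / (n i + 2)`, or `(max v i k) / (n i + 1)` if the arrangement does not consist
of `n i + 2` hyperplanes in general position (for these two the arrangement must not be reducible),
or the (combinatorial) log discrepancy with respect to a log Calabi-Yau pair
`(ℙ ^ (n i), ∑ w k H k)` with rational weights `w k` on the hyperplanes `H k`. Let `I` be a set of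
factors (it may be empty). Suppose: at the prime divisors `P` of `X` whose image lies in one of the
hyperplanes `1 - Δ_P` is at most the sum of the `g i (v i)`, and it is smaller than the sum if the
image lies in one chosen hyperplane `k0 i` of one of the factors in `I`.

The theorem: `κ (X, K_X + Δ) ≥ ∑ i ∈ I, n i ≥ 0`. So `K_X + Δ` is `ℚ`-effective.

The conditions for the different factors are mixed: at a prime divisor which lies over hyperplanes of
several factors only the sum of the `g i (v i)` is bounded from below. For instance let `n i = 1`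
for all `i` and let the arrangements consist of four points with the weights `1 / 2`, or of three
points with the weights `2 / 3`; then `g i (v i)` is `(max v i k) / 2`, or `(max v i k) / 3`.

The function-field language of `Pool.Agent.Y172` is used: `X` is given by the homogeneous coordinates
`y` of its generic point, with values in the function field `K` of `X`; the prime divisors of `X` are
places `P` of `K`, `P.ord` is the order along `P`; `kodairaDim` is the literal definition of the
Kodaira dimension of `K_X + Δ`.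
-/

set_option autoImplicit false

open FF Module Pool.Agent.W602.Cov Pool.Agent.W602.GT Pool.Agent.TH152.AC Pool.Agent.Y172

namespace Pool.Agent.Results.MP_bc213e_ag.MultiprojectivePairs

section bounds

variable {n q : ℕ}

/-- In suitable linear coordinates `X 0, ..., X n` each of the hyperplanes is one of `X j = 0` or
`X 0 + ... + X n = 0`. The arrangements with this property which are not reducible are, up to
repetitions, the arrangements of `n + 2` hyperplanes in general position. -/
def Simplicial (ℓ : Fin q → Form n) : Prop :=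
  ∃ X : Basis (Fin (n + 1)) ℂ (Form n), ∀ i,
    (∃ c : ℂ, ℓ i = c • ∑ j, X j) ∨ ∃ (j : Fin (n + 1)) (c : ℂ), ℓ i = c • X j

/-- `(ℙ ^ n, ∑ w k H k)` is a log Calabi-Yau pair with rational weights: `w` is a rational convex
combination of the vectors with entries `1` for the `n + 1` hyperplanes of a basis `B` (that is, of
`n + 1` linearly independent ones) and `0` for all others. -/
def LogCalabiYau (ℓ : Fin q → Form n) (w : Fin q → ℚ) : Prop :=
  ∃ p : Bases ℓ → ℕ, 0 < ∑ B, p B ∧ ∀ k, (∑ B, (p B : ℚ)) * w k =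
    ∑ B, (p B : ℚ) * ((Finset.univ.filter fun a => B.1 a = k).card : ℚ)

/-- The maximum of the sums of the `v k` over the bases, minus the sum of the `w k * v k`. This is the
log discrepancy of the pair `(ℙ ^ n, ∑ w k H k)` at the toric divisors over the projective space along
which the hyperplanes have the multiplicities `v k`, and a lower bound for it at all divisors with
these multiplicities. -/
noncomputable def logDiscrepancy (ℓ : Fin q → Form n) (w : Fin q → ℚ) (v : Fin q → ℕ) : ℚ :=
  ((Finset.univ.sup fun B : Bases ℓ => ∑ a, v (B.1 a) : ℕ) : ℚ) - ∑ k, w k * v k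

/-- The bounds for one arrangement. -/
inductive Bound (ℓ : Fin q → Form n) : ((Fin q → ℕ) → ℚ) → Prop
  | irreducible : ¬ Reducible ℓ →
      Bound ℓ fun v => ((Finset.univ.sup v : ℕ) : ℚ) / ((n + 2 : ℕ) : ℚ)
  | notSimplicial : ¬ Reducible ℓ → ¬ Simplicial ℓ →
      Bound ℓ fun v => ((Finset.univ.sup v : ℕ) : ℚ) / ((n + 1 : ℕ) : ℚ)
  | logCalabiYau (w : Fin q → ℚ) : LogCalabiYau ℓ w → Bound ℓ (logDiscrepancy ℓ w)

end bounds

/-- The value of a linear form at a vector over `K`. -/
noncomputable def form {n : ℕ} {K : Type} [Field K] [Algebra ℂ K] (φ : Form n)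
    (x : Fin (n + 1) → K) : K := ∑ j, algebraMap ℂ K (φ (Pi.single j 1)) * x j

section divisors

variable {r : ℕ} {n q : Fin r → ℕ} {K : Type} [Field K] [Algebra ℂ K]

/-- The affine coordinates of the product of the projective spaces. -/
noncomputable def affine (x : ∀ i, Fin (n i + 1) → K) (b : (i : Fin r) × Fin (n i)) : K :=
  x b.1 b.2.succ / x b.1 0

/-- The hyperplanes `ℓ i k` have the multiplicities `v i k` at `P`: their orders are `a i + v i k`,
where `a i` is the minimum of the orders of all linear forms on the `i`-th factor. -/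
def Multiplicities (ℓ : ∀ i, Fin (q i) → Form (n i)) (x : ∀ i, Fin (n i + 1) → K)
    (P : Place ℂ K) (a : Fin r → ℤ) (v : ∀ i, Fin (q i) → ℕ) : Prop :=
  (∀ i (φ : Form (n i)), form φ (x i) = 0 ∨ a i ≤ P.ord (form φ (x i))) ∧
    (∀ i, ∃ φ : Form (n i), form φ (x i) ≠ 0 ∧ P.ord (form φ (x i)) = a i) ∧
    ∀ i k, P.ord (form (ℓ i k) (x i)) = a i + v i k

/-- The lower bound: at the prime divisors of `X` whose image lies in one of the hyperplanes the sum
of the bounds is at least `1 - Δ_P`, and it is larger if the image lies in one of the chosen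
hyperplanes `k0 i`, `i ∈ I`. -/
def Lower {M : ℕ} (y : Fin (M + 1) → K) (Δ : Place ℂ K → ℚ) (ℓ : ∀ i, Fin (q i) → Form (n i))
    (x : ∀ i, Fin (n i + 1) → K) (g : ∀ i, (Fin (q i) → ℕ) → ℚ) (I : Finset (Fin r))
    (k0 : ∀ i, Fin (q i)) : Prop :=
  ∀ P, IsPrimeDivisor y P → ∀ (a : Fin r → ℤ) (v : ∀ i, Fin (q i) → ℕ),
    Multiplicities ℓ x P a v → (∃ i, v i ≠ 0) → 1 - Δ P ≤ ∑ i, g i (v i) ∧
      ((∃ i ∈ I, v i (k0 i) ≠ 0) → 1 - Δ P < ∑ i, g i (v i))

end divisors

/-- **The number of the sections of the multiples of `K_X + Δ`** is bounded by the power of the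
multiple with the dimension of `X` as exponent. -/
theorem growth_all {K : Type} [Field K] [Algebra ℂ K] {M N : ℕ} {y : Fin (M + 1) → K}
    (hy : NormalModel y) {Δ : Place ℂ K → ℚ}
    (hΔ : Effective y Δ) {Z : Fin N → K} (hZ : IsTranscendenceBasis ℂ Z)
    (D : Fin N → Derivation ℂ K K) (A : Place ℂ K → ℚ) (hA : Effective y A) :
    ∃ C : ℕ, ∀ m : ℕ, 1 ≤ m → ∀ (ρ : ℕ) (f : Fin ρ → K), LinearIndependent ℂ f →
      (∀ i, ∃ ω, IsSection y N m (m • Δ + A) ω ∧ ω D = f i) → ρ ≤ C * m ^ N := by
  classical
  have hess := hy.ess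
  obtain ⟨S, hS⟩ := sec_fin (n := N) hy hΔ hA D
  obtain ⟨C, hC⟩ := growth hZ (fd_basis hZ) S
    (fun m => {f | ∃ ω, IsSection y N m (m • Δ + A) ω ∧ ω D = f})
    (fun P => by
      obtain ⟨C, hC⟩ := sec_all (n := N) hy hΔ hA D P
      refine ⟨C, ?_⟩
      rintro m hm _ ⟨ω, hω, rfl⟩
      exact hC m hm ω hω)
    (by
      rintro P hP m hm _ ⟨ω, hω, rfl⟩
      exact hS P hP m hm ω hω)
  exact ⟨C, fun m hm ρ f hf hsec => hC m hm ρ f hf hsec⟩

/-- **Nonvanishing.** Let `(X, Δ)` be a projective pair of dimension `N = ∑ i, n i`, `X` normal with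
generic point `y` and `Δ` an effective `ℚ`-divisor, and `X ⇢ ∏ ℙ ^ (n i)` a dominant rational map
with coordinates `x i`. Let `g i` be bounds for the arrangements `ℓ i`, and let `I` be a set of
factors such that `Δ` and the multiplicities satisfy the lower bound `Lower`. Then the Kodaira
dimension of `K_X + Δ` is at least the sum of the `n i`, `i ∈ I`, so it is not `-∞`. -/
theorem result (r N : ℕ) (n q : Fin r → ℕ) (hn : ∀ i, 1 ≤ n i) (hN : N = ∑ i, n i)
    (ℓ : ∀ i, Fin (q i) → Form (n i)) (hℓ : ∀ i k, ℓ i k ≠ 0)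
    (g : ∀ i, (Fin (q i) → ℕ) → ℚ) (hg : ∀ i, Bound (ℓ i) (g i))
    (I : Finset (Fin r)) (k0 : ∀ i, Fin (q i))
    (K : Type) [Field K] [Algebra ℂ K] (M : ℕ) (y : Fin (M + 1) → K) (hy : NormalModel y)
    (Δ : Place ℂ K → ℚ) (hΔ : Effective y Δ)
    (x : ∀ i, Fin (n i + 1) → K) (hx0 : ∀ i, x i 0 ≠ 0) (hbas : IsTranscendenceBasis ℂ (affine x))
    (hlow : Lower y Δ ℓ x g I k0) :
    ((∑ i ∈ I, n i : ℕ) : WithBot ℕ) ≤ kodairaDim y N Δ := by
  classical
  have hwtd : ∀ i, Pool.Agent.TH756.PN.Wtd (ℓ i) (g i) := by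
    intro i
    obtain ⟨G, hG⟩ : ∃ G, G = g i := ⟨_, rfl⟩
    have h1 := hg i
    rw [← hG] at h1 ⊢
    cases h1 with
    | irreducible h2 =>
      exact Pool.Agent.TH756.PN.wtd_slack (by omega)
        (Pool.Agent.TH756.PR.slack_of_bnd (hn i) (hℓ i) h2 (Or.inl rfl))
        (Pool.Agent.W392.CG.span_top (hn i) (ℓ i) h2)
    | notSimplicial h2 h3 =>
      exact Pool.Agent.TH756.PN.wtd_slack (by omega)
        (Pool.Agent.TH756.PR.slack_of_bnd (hn i) (hℓ i) h2 (Or.inr ⟨rfl, Or.inr h3⟩))
        (Pool.Agent.W392.CG.span_top (hn i) (ℓ i) h2)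
    | logCalabiYau w h2 => exact Pool.Agent.TH756.PN.BasePt.wtd h2
  have hcard : Algebra.trdeg ℂ K = (N : Cardinal) := by
    have h1 := hbas.cardinalMk_eq_trdeg
    rw [← h1, Cardinal.mk_fintype, Fintype.card_sigma, hN]
    simp
  let e : ((i : Fin r) × Fin (n i)) ≃ Fin N := finSigmaFinEquiv.trans (finCongr hN.symm)
  have hspan : ∀ i, Submodule.span ℂ (Set.range (ℓ i)) = ⊤ := fun i => (hwtd i).span
  have hlx : ∀ i k, form (ℓ i k) (x i) ≠ 0 := fun i k =>
    Pool.Agent.TH756.PR.lfs_ne hx0 hbas i (hℓ i k)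
  choose p hp0 hp using hwtd
  -- the indices of the coordinates of the factors in `I`
  obtain ⟨f, hf, hfI⟩ : ∃ f : Fin (∑ i ∈ I, n i) → Fin N, Function.Injective f ∧
      ∀ a, (e.symm (f a)).1 ∈ I := by
    have h1 : Fintype.card {a : (i : Fin r) × Fin (n i) // a.1 ∈ I} = ∑ i ∈ I, n i := by
      rw [Fintype.card_subtype, Finset.card_filter, Fintype.sum_sigma, ← Finset.sum_subset
        (Finset.subset_univ I) (fun i _ hi => by simp [hi])]
      refine Finset.sum_congr rfl fun i hi => ?_
      simp [hi]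
    let φ := Fintype.equivFinOfCardEq h1
    refine ⟨fun a => e (φ.symm a), fun a b hab => φ.symm.injective (Subtype.ext (e.injective hab)),
      fun a => ?_⟩
    rw [e.symm_apply_apply]
    exact (φ.symm a).2
  obtain ⟨T, hT, ω, hω, D, hD, hind⟩ := Pool.Agent.TH756.PN.kodGeP e hspan p hp0 g hp hlx hx0
    (Pool.Agent.TH756.PR.basis_uu e hbas) {P | IsPrimeDivisor y P}
    (fun f hf => finite_ord hy hf) (fun P => (Δ P : ℝ))
    (fun P hP => by exact_mod_cast hΔ.1 P hP) I k0
    (fun P hP _ a v hord hsp hv0 => by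
      obtain ⟨h1, h2⟩ := hlow P hP a v (Pool.Agent.TH756.PR.nrm hspan hlx hord hsp) hv0
      refine ⟨?_, fun h => ?_⟩
      · have h3 := (Rat.cast_le (K := ℝ)).2 h1
        push_cast at h3 ⊢
        exact h3
      · have h3 := (Rat.cast_lt (K := ℝ)).2 (h2 h)
        push_cast at h3 ⊢
        exact h3) (∑ i ∈ I, n i) f hf hfI
  obtain ⟨Z, E, hZ, hE⟩ := exists_crd hcard
  have hfr : IsFrame E := fun G =>
    ⟨fun j => G (Z j), (Pool.Agent.W73.PG.PULL.expand Z hZ E hE G).symm⟩
  refine Pool.Agent.Y191.dims_ge hΔ hfr (fun A hA => growth_all hy hΔ hZ E A hA) (m0 := T) hT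
    (ω := ω) (fun j => ⟨(hω j).1, fun P hP G hG => ?_⟩) hD hind
  rcases (hω j).2 P hP (hP.divisorial hy hcard) G hG with h1 | h1
  · exact Or.inl h1
  · right
    rw [Pi.smul_apply, nsmul_eq_mul]
    have h2 : (((-(T * Δ P) : ℚ)) : ℝ) ≤ (((P.ord (ω j G) : ℤ) : ℚ) : ℝ) := by
      push_cast
      exact h1
    exact_mod_cast h2

end Pool.Agent.Results.MP_bc213e_ag.MultiprojectivePairs
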